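import Pool.Agent.Helper79.AL.St1

/-! # Project AL, module TF: the torus away from `p` acts trivially on the big orbits -/

set_option autoImplicit false

namespace Pool.Agent.Helper55.AL

open Matrix ComplexConjugate Pool.Agent.Helper94.YG
open Pool.Agent.Helper94.YF hiding StORB
open Pool.Agent.Helper89.OS Pool.Agent.Helper89.OC Pool.Agent.Helper79.AL

/-- A vector supported on `t = 1` and fixed by `s / p` is invariant under the torus. -/
theorem tf_inv {I : Type} [Fintype I] [DecidableEq I] {p : ℕ} (X : PD I p 1) (δ : I → ℂ)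
    (hs : ∀ j, ∑ k, X.s j k * δ k = (p : ℂ) * δ j) (ht : ∀ k, δ k ≠ 0 → X.t k = 1)
    (w : (ZMod (p ^ 1))ˣ) (j : I) : δ (X.pi w j) = δ j := by
  have hp : p.Prime := X.prime
  have hp0 : (p : ℂ) ≠ 0 := by exact_mod_cast hp.ne_zero
  have hpow : ∀ (k : I) (e : ℕ), X.t k ^ e * δ k = δ k := by
    intro k e
    by_cases h : δ k = 0
    · rw [h, mul_zero]
    · rw [ht k h, one_pow, one_mul]
  have key : ∀ i0, ∑ j, X.s i0 j * δ (X.pi w j) = (p : ℂ) * δ i0 := by
    intro i0
    have h1 : ∑ j, (∑ k, X.t k ^ (w : ZMod (p ^ 1)).val * (X.s i0 k * X.s k j)) * δ j =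
        (p : ℂ) ^ 2 * δ i0 := by
      have e1 : ∀ j, (∑ k, X.t k ^ (w : ZMod (p ^ 1)).val * (X.s i0 k * X.s k j)) * δ j =
          ∑ k, X.t k ^ (w : ZMod (p ^ 1)).val * X.s i0 k * (X.s k j * δ j) := by
        intro j
        rw [Finset.sum_mul]
        refine Finset.sum_congr rfl fun k _ => ?_
        ring
      rw [Finset.sum_congr rfl fun j _ => e1 j, Finset.sum_comm]
      have e2 : ∀ k, ∑ j, X.t k ^ (w : ZMod (p ^ 1)).val * X.s i0 k * (X.s k j * δ j) =
          (p : ℂ) * (X.s i0 k * δ k) := by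
        intro k
        rw [← Finset.mul_sum, hs k]
        have := hpow k (w : ZMod (p ^ 1)).val
        linear_combination ((p : ℂ) * X.s i0 k) * this
      rw [Finset.sum_congr rfl fun k _ => e2 k, ← Finset.mul_sum, hs i0]
      ring
    have h2 : ∑ j, (∑ k, X.t k ^ (w : ZMod (p ^ 1)).val * (X.s i0 k * X.s k j)) * δ j =
        (p : ℂ) * X.t i0 ^ (-((w⁻¹ : (ZMod (p ^ 1))ˣ) : ZMod (p ^ 1))).val *
          ∑ j, X.s i0 j * δ (X.pi w j) := by
      have e1 : ∀ j, (∑ k, X.t k ^ (w : ZMod (p ^ 1)).val * (X.s i0 k * X.s k j)) * δ j =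
          (p : ℂ) * X.t i0 ^ (-((w⁻¹ : (ZMod (p ^ 1))ˣ) : ZMod (p ^ 1))).val *
            (X.s i0 (X.pi w⁻¹ j) * δ j) := by
        intro j
        rw [X.weil w i0 j]
        have := hpow j (-((w⁻¹ : (ZMod (p ^ 1))ˣ) : ZMod (p ^ 1))).val
        linear_combination ((p : ℂ) *
          X.t i0 ^ (-((w⁻¹ : (ZMod (p ^ 1))ˣ) : ZMod (p ^ 1))).val * X.s i0 (X.pi w⁻¹ j)) * this
      rw [Finset.sum_congr rfl fun j _ => e1 j, ← Finset.mul_sum]
      congr 1
      have e3 := Equiv.sum_comp (Helper8.OS.piE X w) (fun j => X.s i0 (X.pi w⁻¹ j) * δ j)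
      rw [← e3]
      refine Finset.sum_congr rfl fun j _ => ?_
      change X.s i0 (X.pi w⁻¹ (X.pi w j)) * δ (X.pi w j) = _
      rw [← X.pi_mul, inv_mul_cancel, X.pi_one]
    rw [h1] at h2
    by_cases h : X.t i0 = 1
    · rw [h, one_pow, mul_one] at h2
      apply mul_left_cancel₀ hp0
      rw [← h2]
      ring
    · have h0 : δ i0 = 0 := by
        by_contra h3
        exact h (ht i0 h3)
      rw [h0, mul_zero] at h2 ⊢
      have ht0 : X.t i0 ≠ 0 := by
        intro h4
        have := X.t_pow i0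
        rw [h4, zero_pow (by rw [pow_one]; exact hp.ne_zero)] at this
        exact zero_ne_one this
      rcases mul_eq_zero.1 h2.symm with h5 | h5
      · exact absurd h5 (mul_ne_zero hp0 (pow_ne_zero _ ht0))
      · exact h5
  have hz : ∀ i0, ∑ j, X.s i0 j * (δ (X.pi w j) - δ j) = 0 := by
    intro i0
    have e : ∀ j, X.s i0 j * (δ (X.pi w j) - δ j) = X.s i0 j * δ (X.pi w j) - X.s i0 j * δ j := by
      intro j
      ring
    rw [Finset.sum_congr rfl fun j _ => e j, Finset.sum_sub_distrib, key, hs, sub_self]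
  have h3 : ∑ i0, conj (X.s i0 j) * ∑ j', X.s i0 j' * (δ (X.pi w j') - δ j') = 0 := by
    refine Finset.sum_eq_zero fun i0 _ => ?_
    rw [hz i0, mul_zero]
  have h4 : ∑ i0, conj (X.s i0 j) * ∑ j', X.s i0 j' * (δ (X.pi w j') - δ j') =
      (p : ℂ) ^ 2 * (δ (X.pi w j) - δ j) := by
    have e1 : ∀ i0, conj (X.s i0 j) * ∑ j', X.s i0 j' * (δ (X.pi w j') - δ j') =
        ∑ j', X.s j' i0 * conj (X.s j i0) * (δ (X.pi w j') - δ j') := by
      intro i0
      rw [Finset.mul_sum]
      refine Finset.sum_congr rfl fun j' _ => ?_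
      rw [X.s_symm i0 j, X.s_symm i0 j']
      ring
    rw [Finset.sum_congr rfl fun i0 _ => e1 i0, Finset.sum_comm]
    have e2 : ∀ j', ∑ i0, X.s j' i0 * conj (X.s j i0) * (δ (X.pi w j') - δ j') =
        if j' = j then (p : ℂ) ^ 2 * (δ (X.pi w j') - δ j') else 0 := by
      intro j'
      rw [← Finset.sum_mul, X.s_uni]
      split_ifs
      · rfl
      · rw [zero_mul]
    rw [Finset.sum_congr rfl fun j' _ => e2 j']
    simp
  rw [h3] at h4
  rcases mul_eq_zero.1 h4.symm with h5 | h5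
  · exact absurd h5 (pow_ne_zero _ hp0)
  · exact sub_eq_zero.1 h5

theorem hTF : StTF := by
  classical
  intro hLU hUNQ hGAZ hSRU hETA hDZ hGLA hFCA hFCB hORB I _ _ Z p _ b X Q e hL hB h5 he hy x hx
    i hi hO
  have hp : p.Prime := X.prime
  have hp0 : (p : ℂ) ≠ 0 := by exact_mod_cast hp.ne_zero
  have hF := hFCA I Z
  have hbb : b * b = b := hL.lk.idp.idem
  obtain ⟨π, hπb, hπG, hπo, -, -, hπt, hπs, -⟩ := hF.perm x
  have hxb : ((x : ZMod Z.L) - 1) * b = 0 := hx
  have hs2 := hπs b hbb hxb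
  have hs : ∀ i k, X.s i k = (p : ℂ) * Z.rho (s2 b) i k := by
    intro i k
    rw [hL.lk.s]
  have hsπ : ∀ i k, X.s (π i) (π k) = X.s i k := by
    intro i k
    rw [hs, hs, hs2]
  have htπ : ∀ k, X.t (π k) = X.t k := by
    intro k
    rw [hL.lk.t]
    exact hπt b hxb k
  have hyπ : ∀ k, X.y (π k) = X.y k := by
    intro k
    have h1 : π X.o = X.o := by
      rw [hL.lk.o]
      exact (hπo Z.o).2 rfl
    have h2 := hsπ k X.o
    rw [h1, X.s_o, X.s_o] at h2
    exact_mod_cast h2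
  have hfix : ∀ j, X.y j ≠ 0 → X.t j ≠ 1 → π j = j := by
    intro j hj1 hj2
    have h1 := hLU hUNQ hGAZ hSRU hETA hDZ hGLA hFCA I Z p b X e hL h5 he hy x hx j hj1 hj2
    rw [hπG j j] at h1
    by_contra h2
    rw [if_neg (fun h => h2 h.symm)] at h1
    exact zero_ne_one h1
  obtain ⟨hi1, hi2, hi3⟩ := (Finset.mem_filter.1 hi).2
  obtain ⟨i1, hi4⟩ := hπb.2 i
  set δ : I → ℂ := fun k => (if π k = i then 1 else 0) - (if k = i then 1 else 0) with hδ
  have hδ' : ∀ k, δ k = (if k = i1 then 1 else 0) - (if k = i then 1 else 0) := by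
    intro k
    simp only [hδ]
    have : π k = i ↔ k = i1 := by
      rw [← hi4]
      exact hπb.1.eq_iff
    simp only [this]
  have ht1 : X.t i1 = 1 := by
    rw [← htπ i1, hi4, hi2]
  have hδt : ∀ k, δ k ≠ 0 → X.t k = 1 := by
    intro k hk
    rw [hδ'] at hk
    by_cases h1 : k = i1
    · rw [h1, ht1]
    · by_cases h2 : k = i
      · rw [h2, hi2]
      · rw [if_neg h1, if_neg h2, sub_zero] at hk
        exact absurd rfl hk
  have hsδ : ∀ j, ∑ k, X.s j k * δ k = X.s (π j) i - X.s j i := by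
    intro j
    have e1 : ∀ k, X.s j k * δ k = (if k = i1 then X.s j k else 0) -
        (if k = i then X.s j k else 0) := by
      intro k
      rw [hδ']
      split_ifs <;> ring
    rw [Finset.sum_congr rfl fun k _ => e1 k, Finset.sum_sub_distrib]
    simp only [Finset.sum_ite_eq', Finset.mem_univ, if_true]
    rw [← hsπ j i1, hi4]
  have hz : ∀ j, X.t j ≠ 1 → ∑ k, X.s j k * δ k = 0 := by
    intro j hj
    rw [hsδ]
    by_cases hyj : X.y j = 0
    · rw [X.s_symm (π j) i, X.s_symm j i, hB.sup i (π j) hi1 (by rw [hyπ, hyj]),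
        hB.sup i j hi1 hyj, sub_zero]
    · rw [hfix j hyj hj, sub_self]
  have hmul : ∀ j, (p : ℂ) * (Z.rho (s2 b) *ᵥ δ) j = ∑ k, X.s j k * δ k := by
    intro j
    simp only [Matrix.mulVec, dotProduct]
    rw [Finset.mul_sum]
    refine Finset.sum_congr rfl fun k _ => ?_
    rw [hs]
    ring
  have hFx : Fx Z b δ := by
    refine (hFCB hFCA I Z).of b δ hbb ?_ ?_
    · intro k hk
      rw [← hL.lk.t]
      exact hδt k hk
    · intro k hk
      by_contra h
      apply hk
      have h1 := hz k (by rw [hL.lk.t]; exact h)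
      rw [← hmul] at h1
      rcases mul_eq_zero.1 h1 with h2 | h2
      · exact absurd h2 hp0
      · exact h2
  have hfx : ∀ j, ∑ k, X.s j k * δ k = (p : ℂ) * δ j := by
    intro j
    rw [← hmul, hFx.1]
  have hinv := tf_inv X δ hfx hδt
  by_cases h : i1 = i
  · rw [hπG i i, if_pos]
    rw [h] at hi4
    exact hi4.symm
  · exfalso
    have h1 : δ i = -1 := by
      rw [hδ', if_neg (fun h2 => h h2.symm), if_pos rfl]
      ring
    obtain ⟨k, hk1, hk2⟩ := Finset.exists_mem_ne (show 1 < (Orb X i).card by omega) i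
    simp only [Orb, Finset.mem_filter, Finset.mem_univ, true_and] at hk1
    obtain ⟨c, hc⟩ := hk1
    have h2 := hinv c i
    rw [hc, h1, hδ', if_neg hk2] at h2
    split_ifs at h2
    · norm_num at h2
    · norm_num at h2

end Pool.Agent.Helper55.AL
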